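import Pool.Agent.V11120.Rul.Main

/-!
# Squarefree words with initial non-repetitive complexity at most `2n`
-/

set_option autoImplicit false

namespace Pool.Agent.Results.MP_2232d5_co.RulerUnique

/-- The factor of length `n` of the infinite word `y` starting at position `i`. -/
def factor (y : ℕ → ℕ) (i n : ℕ) : List ℕ := (List.range n).map (fun u => y (i + u))

/-- `y` is squarefree: no factor of `y` is a square `u u` with `u` nonempty. -/
def IsSquarefree (y : ℕ → ℕ) : Prop :=
  ∀ (u : List ℕ) (i : ℕ), u ≠ [] → factor y i (u ++ u).length ≠ u ++ u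

/-- The initial non-repetitive complexity: the supremum (possibly `⊤`) of the numbers `m` such
that the factors of length `n` starting at the positions `0, …, m-1` are pairwise distinct. -/
noncomputable def nsc (y : ℕ → ℕ) (n : ℕ) : ℕ∞ :=
  ⨆ m ∈ {m : ℕ | ∀ i j, i < j → j < m → factor y i n ≠ factor y j n}, (m : ℕ∞)

/-- The Zimin words. -/
def zimin : ℕ → List ℕ
  | 0 => []
  | k + 1 => zimin k ++ k :: zimin k

/-- `x` is the ruler sequence: it has every Zimin word as a prefix. -/
def IsRuler (x : ℕ → ℕ) : Prop := ∀ k, factor x 0 (zimin k).length = zimin k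

namespace Proof

open Pool.Agent.V11120.Rul

theorem zimin_eq (k : ℕ) :
    zimin k = (List.range (2 ^ k - 1)).map (fun u => padicValNat 2 (u + 1)) := by
  induction k with
  | zero => simp [zimin]
  | succ k ih =>
    have hN : 0 < 2 ^ k := by positivity
    have h1 : 2 ^ (k + 1) - 1 = (2 ^ k - 1) + (1 + (2 ^ k - 1)) := by rw [pow_succ]; omega
    rw [zimin, h1, List.range_add, List.map_append, ← ih, List.append_right_inj]
    rw [List.range_add, List.map_append, List.map_append]
    have h2 : ((List.range 1).map (fun x => 2 ^ k - 1 + x)).map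
        (fun u => padicValNat 2 (u + 1)) = [k] := by
      simp only [List.range_one, List.map_cons, List.map_nil, Nat.add_zero]
      rw [show 2 ^ k - 1 + 1 = 2 ^ k by omega, val_pow]
    rw [h2, ih]
    simp only [List.map_map, List.cons_append, List.nil_append, List.cons.injEq, true_and]
    apply List.map_congr_left
    intro u hu
    rw [List.mem_range] at hu
    simp only [Function.comp_apply]
    rw [show 2 ^ k - 1 + (1 + u) + 1 = 2 ^ k + (u + 1) by omega,
      val_small (j := k) (by omega) (by omega) (dvd_refl _)]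

theorem isRuler : IsRuler (fun i => padicValNat 2 (i + 1)) := by
  intro k
  rw [factor, zimin_eq, List.length_map, List.length_range]
  simp

theorem factor_eq {y : ℕ → ℕ} {i j n : ℕ} :
    factor y i n = factor y j n ↔ ∀ u < n, y (i + u) = y (j + u) := by
  rw [factor, factor, List.map_inj_left]
  simp

theorem sq_of {y : ℕ → ℕ} (h : IsSquarefree y) (i p : ℕ) (hp : 0 < p) :
    ∃ u < p, y (i + u) ≠ y (i + p + u) := by
  by_contra hc
  push Not at hc
  have h1 : factor y i p ≠ [] := by
    intro h2
    have := congrArg List.length h2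
    simp only [factor, List.length_map, List.length_range, List.length_nil] at this
    omega
  apply h (factor y i p) i h1
  have h2 : (factor y i p).length = p := by simp [factor]
  have h3 : factor y i p = factor y (i + p) p := factor_eq.2 hc
  conv_rhs => rw [h3]
  rw [← h3, List.length_append, h2]
  rw [factor, List.range_add, List.map_append]
  congr 1
  rw [List.map_map]
  nth_rewrite 1 [h3]
  rw [factor]
  apply List.map_congr_left
  intro u _
  simp only [Function.comp_apply]
  rw [add_assoc]

theorem rep_of {y : ℕ → ℕ} (h : ∀ n : ℕ, 1 ≤ n → nsc y n ≤ 2 * n) (n : ℕ) (hn : 0 < n) :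
    ∃ i j, i < j ∧ j ≤ 2 * n ∧ ∀ u < n, y (i + u) = y (j + u) := by
  by_contra hc
  push Not at hc
  have h1 : (2 * n + 1) ∈ {m : ℕ | ∀ i j, i < j → j < m → factor y i n ≠ factor y j n} := by
    intro i j hij hj he
    obtain ⟨u, hu, hne⟩ := hc i j hij (by omega)
    exact hne (factor_eq.1 he u hu)
  have h2 : ((2 * n + 1 : ℕ) : ℕ∞) ≤ nsc y n := le_iSup₂_of_le (2 * n + 1) h1 le_rfl
  have h3 := h2.trans (h n hn)
  have h4 : ((2 * n + 1 : ℕ) : ℕ∞) ≤ ((2 * n : ℕ) : ℕ∞) := by
    refine h3.trans_eq ?_
    push_cast
    rfl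
  rw [Nat.cast_le] at h4
  omega

end Proof

/-- **The ruler sequence is, up to a renaming of the letters, the only infinite squarefree word
whose initial non-repetitive complexity is at most `2n` for all `n ≥ 1`.** -/
theorem result : ∃ x : ℕ → ℕ, IsRuler x ∧
    ∀ y : ℕ → ℕ, IsSquarefree y → (∀ n : ℕ, 1 ≤ n → nsc y n ≤ 2 * n) →
      ∃ σ : ℕ ≃ Set.range y, ∀ i, y i = σ (x i) := by
  refine ⟨fun i => padicValNat 2 (i + 1), Proof.isRuler, ?_⟩
  intro y h1 h2
  obtain ⟨L, hL, hy⟩ :=
    Pool.Agent.V11120.Rul.word_eq y (fun i p hp => Proof.sq_of h1 i p hp) (Proof.rep_of h2)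
  have hr : Set.range y = Set.range L := by
    ext a
    constructor
    · rintro ⟨i, rfl⟩
      exact ⟨_, (hy i).symm⟩
    · rintro ⟨j, rfl⟩
      refine ⟨2 ^ j - 1, ?_⟩
      rw [hy, show 2 ^ j - 1 + 1 = 2 ^ j by have : 0 < 2 ^ j := by positivity
                                            omega, Pool.Agent.V11120.Rul.val_pow]
  refine ⟨(Equiv.ofInjective L hL).trans (Equiv.setCongr hr.symm), ?_⟩
  intro i
  rw [hy i]
  rfl

end Pool.Agent.Results.MP_2232d5_co.RulerUnique
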